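import Mathlib
import Pool.Agent.N836.SM.Stm

set_option autoImplicit false

namespace Pool.Agent.N362.SM
open Pool.Agent.N836.SM
open scoped BigOperators ENNReal
open MeasureTheory

noncomputable local instance : MeasureSpace UnitAddCircle := ⟨AddCircle.haarAddCircle⟩
local instance : Measure.IsAddHaarMeasure (volume : Measure UnitAddCircle) :=
  inferInstanceAs (Measure.IsAddHaarMeasure AddCircle.haarAddCircle)
local instance : IsProbabilityMeasure (volume : Measure UnitAddCircle) :=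
  inferInstanceAs (IsProbabilityMeasure AddCircle.haarAddCircle)

/-- product formula for sums over `ℤ^N`. -/
theorem pi_sum : ∀ (N : ℕ) (f : Fin N → ℤ → ℂ), (∀ j, Summable fun m => ‖f j m‖) →
    (Summable fun z : Fin N → ℤ => ‖∏ j, f j (z j)‖) ∧
    ∑' z : Fin N → ℤ, ∏ j, f j (z j) = ∏ j, ∑' m, f j m := by
  intro N
  induction N with
  | zero =>
    intro f hf
    refine ⟨?_, ?_⟩
    · exact (hasSum_fintype _).summable
    · simp
  | succ N ih =>
    intro f hf
    obtain ⟨h1, h2⟩ := ih (fun j => f j.succ) (fun j => hf j.succ)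
    constructor
    · rw [← (Fin.consEquiv (fun _ : Fin (N+1) => ℤ)).summable_iff]
      have h3 := (hf 0).mul_norm h1
      refine h3.congr fun z => ?_
      simp [Fin.prod_univ_succ, Fin.consEquiv]
    · rw [← (Fin.consEquiv (fun _ : Fin (N+1) => ℤ)).tsum_eq, Fin.prod_univ_succ, ← h2,
        tsum_mul_tsum_of_summable_norm (hf 0) h1]
      refine tsum_congr fun z => ?_
      simp [Fin.prod_univ_succ, Fin.consEquiv]

theorem summable_gauss (a : ℝ) (ha : 0 < a) :
    Summable fun m : ℤ => Real.exp (-(Real.pi * a) * (m : ℝ) ^ 2) := by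
  have hτ : 0 < ((a : ℂ) * Complex.I).im := by simpa using ha
  have h := ((summable_jacobiTheta₂_term_iff 0 ((a : ℂ) * Complex.I)).mpr hτ).norm
  refine h.congr fun m => ?_
  rw [norm_jacobiTheta₂_term]
  congr 1
  simp
  ring

theorem poisson1 (a : ℝ) (ha : 0 < a) (y : ℝ) :
    ∑' m : ℤ, Complex.exp (((-Real.pi * ((m : ℝ) ^ 2 / a) : ℝ) : ℂ) +
        2 * Real.pi * Complex.I * (y * m)) =
      ((Real.sqrt a : ℝ) : ℂ) * ∑' k : ℤ, ((Real.exp (-Real.pi * (a * (k - y) ^ 2)) : ℝ) : ℂ) := by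
  have ha' : 0 < (((1 / a : ℝ)) : ℂ).re := by
    rw [Complex.ofReal_re]; positivity
  have h := Complex.tsum_exp_neg_quadratic ha' (Complex.I * y)
  have e1 : ∀ m : ℤ, Complex.exp (((-Real.pi * ((m : ℝ) ^ 2 / a) : ℝ) : ℂ) +
        2 * Real.pi * Complex.I * (y * m)) =
        Complex.exp (-Real.pi * ((1 / a : ℝ) : ℂ) * (m : ℂ) ^ 2 + 2 * Real.pi * (Complex.I * y) * m) := by
    intro m
    congr 1
    push_cast
    ring
  rw [tsum_congr e1, h]
  congr 1
  · have h2 : (1 / 2 : ℂ) = (((1 / 2 : ℝ)) : ℂ) := by push_cast; rfl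
    rw [h2, ← Complex.ofReal_cpow (by positivity), ← Complex.ofReal_one, ← Complex.ofReal_div]
    congr 1
    rw [← Real.sqrt_eq_rpow, Real.sqrt_div zero_le_one, Real.sqrt_one]
    simp
  · refine tsum_congr fun k => ?_
    rw [Complex.ofReal_exp]
    congr 1
    push_cast
    have hane : (a : ℂ) ≠ 0 := by exact_mod_cast ha.ne'
    have : (k : ℂ) + Complex.I * (Complex.I * y) = k - y := by
      linear_combination (y : ℂ) * Complex.I_sq
    rw [this]
    field_simp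

/-- `exp (2 π i x)` -/
noncomputable def ee (x : ℝ) : ℂ := Complex.exp (2 * Real.pi * Complex.I * x)

theorem norm_ee (x : ℝ) : ‖ee x‖ = 1 := by
  unfold ee
  rw [Complex.norm_exp]
  simp

theorem mFourier_mk {d : ℕ} (r : Fin d → ℤ) (χ : Fin d → ℝ) :
    UnitAddTorus.mFourier r (fun i => ((χ i : ℝ) : UnitAddCircle)) = ee (∑ k, χ k * r k) := by
  unfold ee
  simp only [UnitAddTorus.mFourier, ContinuousMap.coe_mk]
  rw [Complex.ofReal_sum, Finset.mul_sum, Complex.exp_sum]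
  refine Finset.prod_congr rfl fun i _ => ?_
  rw [fourier_coe_apply]
  congr 1
  push_cast
  ring

theorem exists_rep {d : ℕ} (x : UnitAddTorus (Fin d)) :
    ∃ χ : Fin d → ℝ, (∀ k, 0 ≤ χ k ∧ χ k ≤ 1) ∧ x = fun i => ((χ i : ℝ) : UnitAddCircle) := by
  have h : ∀ i, ∃ y : ℝ, (0 ≤ y ∧ y ≤ 1) ∧ x i = ((y : ℝ) : UnitAddCircle) := by
    intro i
    obtain ⟨y, hy⟩ := QuotientAddGroup.mk_surjective (x i)
    refine ⟨Int.fract y, ⟨Int.fract_nonneg _, (Int.fract_lt_one _).le⟩, ?_⟩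
    rw [← hy]
    have : ((Int.fract y : ℝ) : UnitAddCircle) = ((y : ℝ) : UnitAddCircle) := by
      rw [QuotientAddGroup.eq]
      refine ⟨⌊y⌋, ?_⟩
      simp only [zsmul_eq_mul, mul_one]
      rw [Int.fract]
      ring
    rw [this]
  choose χ h1 h2 using h
  exact ⟨χ, h1, funext h2⟩

theorem fourier_inv {d : ℕ} (D : (Fin d → ℤ) → ℂ) (hD : Summable fun r => ‖D r‖) (η : ℝ)
    (hη : 0 ≤ η)
    (h : ∀ χ : Fin d → ℝ, (∀ k, 0 ≤ χ k ∧ χ k ≤ 1) → ‖∑' r, D r * ee (∑ k, χ k * r k)‖ ≤ η)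
    (r0 : Fin d → ℤ) : ‖D r0‖ ≤ η := by
  have hs : Summable fun r => D r • UnitAddTorus.mFourier r := by
    refine Summable.of_norm ?_
    simpa only [norm_smul, UnitAddTorus.mFourier_norm, mul_one] using hD
  set f : C(UnitAddTorus (Fin d), ℂ) := ∑' r, D r • UnitAddTorus.mFourier r with hf
  have hfn : ‖f‖ ≤ η := by
    refine (ContinuousMap.norm_le _ hη).mpr fun x => ?_
    obtain ⟨χ, h1, h2⟩ := exists_rep x
    have e : f x = ∑' r, D r * ee (∑ k, χ k * r k) := by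
      have h3 := (ContinuousMap.evalCLM ℂ x).map_tsum hs
      rw [← hf] at h3
      have h4 : f x = (ContinuousMap.evalCLM ℂ x) f := rfl
      rw [h4, h3]
      refine tsum_congr fun r => ?_
      rw [map_smul, smul_eq_mul]
      congr 1
      rw [← mFourier_mk, ← h2]
      rfl
    rw [e]
    exact h χ h1
  have horth := UnitAddTorus.orthonormal_mFourier (d := Fin d)
  let Φ : C(UnitAddTorus (Fin d), ℂ) →L[ℂ] ℂ :=
    (innerSL ℂ (UnitAddTorus.mFourierLp (d := Fin d) 2 r0)).comp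
      (ContinuousMap.toLp (E := ℂ) 2 (volume : Measure (UnitAddTorus (Fin d))) ℂ)
  have h5 : Φ f = D r0 := by
    rw [hf, Φ.map_tsum hs, tsum_eq_single r0]
    · rw [map_smul]
      have : Φ (UnitAddTorus.mFourier r0) = 1 := by
        have := (orthonormal_iff_ite.mp horth) r0 r0
        rw [if_pos rfl] at this
        exact this
      rw [this]; simp
    · intro r hr
      rw [map_smul]
      have : Φ (UnitAddTorus.mFourier r) = 0 := by
        have := (orthonormal_iff_ite.mp horth) r0 r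
        rw [if_neg (Ne.symm hr)] at this
        exact this
      rw [this]; simp
  have h6 : ‖Φ f‖ ≤ ‖f‖ := by
    have h7 : ‖Φ f‖ ≤ ‖UnitAddTorus.mFourierLp (d := Fin d) 2 r0‖ *
      ‖ContinuousMap.toLp (E := ℂ) 2 (volume : Measure (UnitAddTorus (Fin d))) ℂ f‖ :=
      norm_inner_le_norm (𝕜 := ℂ) (UnitAddTorus.mFourierLp (d := Fin d) 2 r0)
        (ContinuousMap.toLp (E := ℂ) 2 (volume : Measure (UnitAddTorus (Fin d))) ℂ f)
    rw [horth.norm_eq_one r0, one_mul] at h7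
    refine h7.trans ?_
    refine (ContinuousLinearMap.le_opNorm _ _).trans ?_
    have h8 := ContinuousMap.toLp_norm_le (E := ℂ) (p := 2) (𝕜 := ℂ) (μ := (volume : Measure (UnitAddTorus (Fin d))))
    have h9 : ((measureUnivNNReal (volume : Measure (UnitAddTorus (Fin d))) : ℝ) ^ (ENNReal.toReal 2)⁻¹) = 1 := by
      have : measureUnivNNReal (volume : Measure (UnitAddTorus (Fin d))) = 1 := by
        simp [measureUnivNNReal]
      rw [this]; simp
    rw [h9] at h8
    calc _ ≤ 1 * ‖f‖ := by gcongr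
      _ = ‖f‖ := one_mul _
  rw [← h5]
  exact h6.trans hfn


/-- the weighted square of a real vector -/
noncomputable def qf {N : ℕ} (s y : Fin N → ℝ) : ℝ := ∑ j, s j * (y j) ^ 2

/-- `Pᵀ χ` -/
noncomputable def yv {N d : ℕ} (P : Matrix (Fin d) (Fin N) ℤ) (χ : Fin d → ℝ) : Fin N → ℝ :=
  fun j => ∑ k, χ k * (P k j : ℝ)

theorem qf_nonneg {N : ℕ} (s y : Fin N → ℝ) (hs : ∀ j, 0 < s j) : 0 ≤ qf s y :=
  Finset.sum_nonneg fun j _ => mul_nonneg (hs j).le (sq_nonneg _)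

theorem ee_add (x y : ℝ) : ee (x + y) = ee x * ee y := by
  unfold ee
  rw [← Complex.exp_add]
  congr 1
  push_cast
  ring

theorem prod_term {N : ℕ} (s : Fin N → ℝ) (t : ℝ) (y : Fin N → ℝ) (z : Fin N → ℤ) :
    ∏ j, Complex.exp (((-Real.pi * ((z j : ℝ) ^ 2 / (t * s j)) : ℝ) : ℂ) +
        2 * Real.pi * Complex.I * (y j * z j)) = (wt s t z : ℂ) * ee (∑ j, y j * z j) := by
  rw [← Complex.exp_sum, Finset.sum_add_distrib, Complex.exp_add]
  unfold wt ee
  congr 1
  · rw [Complex.ofReal_exp, ← Complex.ofReal_sum, ← Finset.mul_sum]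
  · rw [Complex.ofReal_sum, Finset.mul_sum]
    congr 1
    refine Finset.sum_congr rfl fun j _ => ?_
    push_cast
    ring

theorem norm_term (a : ℝ) (y : ℝ) (m : ℤ) :
    ‖Complex.exp (((-Real.pi * ((m : ℝ) ^ 2 / a) : ℝ) : ℂ) +
        2 * Real.pi * Complex.I * (y * m))‖ = Real.exp (-(Real.pi * (1 / a)) * (m : ℝ) ^ 2) := by
  rw [Complex.norm_exp]
  congr 1
  have : (2 * Real.pi * Complex.I * ((y : ℂ) * m)).re = 0 := by
    have : (2 * Real.pi * Complex.I * ((y : ℂ) * m)) = ((2 * Real.pi * (y * m) : ℝ) : ℂ) * Complex.I := by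
      push_cast; ring
    rw [this]; simp
  rw [Complex.add_re, this, Complex.ofReal_re]
  ring

theorem summable_wt {N : ℕ} (s : Fin N → ℝ) (hs : ∀ j, 0 < s j) (t : ℝ) (ht : 0 < t) :
    Summable (wt s t) := by
  have h := (pi_sum N (fun j m => Complex.exp (((-Real.pi * ((m : ℝ) ^ 2 / (t * s j)) : ℝ) : ℂ) +
        2 * Real.pi * Complex.I * (((0 : ℝ) : ℂ) * m))) (by
    intro j
    simp only [norm_term]
    exact summable_gauss _ (one_div_pos.mpr (mul_pos ht (hs j))))).1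
  refine h.congr fun z => ?_
  have := prod_term s t (fun _ => 0) z
  rw [this, norm_mul, norm_ee, mul_one, Complex.norm_real, Real.norm_eq_abs, abs_of_nonneg]
  exact (Real.exp_pos _).le

theorem summable_shift (a : ℝ) (ha : 0 < a) (y : ℝ) :
    Summable fun m : ℤ => Real.exp (-Real.pi * (a * ((m : ℝ) - y) ^ 2)) := by
  have h := (summable_gauss (a / 2) (by positivity)).mul_left (Real.exp (Real.pi * (a * y ^ 2)))
  refine Summable.of_nonneg_of_le (fun m => (Real.exp_pos _).le) (fun m => ?_) h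
  rw [← Real.exp_add]
  apply Real.exp_le_exp.mpr
  have h1 : 0 < Real.pi * a := mul_pos Real.pi_pos ha
  nlinarith [mul_nonneg h1.le (sq_nonneg ((m : ℝ) - 2 * y))]

theorem prod_shift {N : ℕ} (s : Fin N → ℝ) (t : ℝ) (y : Fin N → ℝ) (z : Fin N → ℤ) :
    ∏ j, ((Real.exp (-Real.pi * ((t * s j) * ((z j : ℝ) - y j) ^ 2)) : ℝ) : ℂ) =
      ((Real.exp (-Real.pi * (t * qf s (fun j => (z j : ℝ) - y j))) : ℝ) : ℂ) := by
  rw [← Complex.ofReal_prod, ← Real.exp_sum]
  congr 2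
  unfold qf
  rw [Finset.mul_sum, Finset.mul_sum]
  refine Finset.sum_congr rfl fun j _ => ?_
  ring

theorem summable_qf {N : ℕ} (s : Fin N → ℝ) (hs : ∀ j, 0 < s j) (t : ℝ) (ht : 0 < t)
    (y : Fin N → ℝ) :
    Summable fun z : Fin N → ℤ => Real.exp (-Real.pi * (t * qf s (fun j => (z j : ℝ) - y j))) := by
  have h := (pi_sum N (fun j m => ((Real.exp (-Real.pi * ((t * s j) * ((m : ℝ) - y j) ^ 2)) : ℝ) : ℂ)) (by
    intro j
    refine (summable_shift (t * s j) (mul_pos ht (hs j)) (y j)).congr fun m => ?_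
    rw [Complex.norm_real, Real.norm_eq_abs, abs_of_nonneg (Real.exp_pos _).le])).1
  refine h.congr fun z => ?_
  rw [prod_shift, Complex.norm_real, Real.norm_eq_abs, abs_of_nonneg (Real.exp_pos _).le]

/-- Poisson summation for the weight. -/
theorem poissonN {N : ℕ} (s : Fin N → ℝ) (hs : ∀ j, 0 < s j) (t : ℝ) (ht : 0 < t)
    (y : Fin N → ℝ) :
    ∑' z : Fin N → ℤ, (wt s t z : ℂ) * ee (∑ j, y j * z j) =
      (((∏ j, Real.sqrt (t * s j)) *
        ∑' z : Fin N → ℤ, Real.exp (-Real.pi * (t * qf s (fun j => (z j : ℝ) - y j))) : ℝ) : ℂ) := by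
  have h1 := (pi_sum N (fun j m => Complex.exp (((-Real.pi * ((m : ℝ) ^ 2 / (t * s j)) : ℝ) : ℂ) +
        2 * Real.pi * Complex.I * ((y j : ℂ) * m))) (by
    intro j
    simp only [norm_term]
    exact summable_gauss _ (one_div_pos.mpr (mul_pos ht (hs j))))).2
  have h2 := (pi_sum N (fun j m => ((Real.exp (-Real.pi * ((t * s j) * ((m : ℝ) - y j) ^ 2)) : ℝ) : ℂ)) (by
    intro j
    refine (summable_shift (t * s j) (mul_pos ht (hs j)) (y j)).congr fun m => ?_
    rw [Complex.norm_real, Real.norm_eq_abs, abs_of_nonneg (Real.exp_pos _).le])).2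
  simp only [prod_term] at h1
  rw [h1]
  rw [tsum_congr (fun z => prod_shift s t y z)] at h2
  rw [Complex.ofReal_mul, Complex.ofReal_tsum, h2, Complex.ofReal_prod, ← Finset.prod_mul_distrib]
  refine Finset.prod_congr rfl fun j _ => ?_
  rw [poisson1 (t * s j) (mul_pos ht (hs j)) (y j)]

theorem sum_swap {N d : ℕ} (P : Matrix (Fin d) (Fin N) ℤ) (χ : Fin d → ℝ) (z : Fin N → ℤ) :
    ∑ k, χ k * ((P.mulVec z k : ℤ) : ℝ) = ∑ j, yv P χ j * z j := by
  unfold yv
  simp only [Matrix.mulVec, dotProduct, Int.cast_sum, Int.cast_mul, Finset.mul_sum, Finset.sum_mul]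
  rw [Finset.sum_comm]
  refine Finset.sum_congr rfl fun j _ => Finset.sum_congr rfl fun k _ => ?_
  ring

theorem marg_hasSum {N d : ℕ} (P : Matrix (Fin d) (Fin N) ℤ) (s : Fin N → ℝ) (hs : ∀ j, 0 < s j)
    (t : ℝ) (ht : 0 < t) (χ : Fin d → ℝ) :
    HasSum (fun r : Fin d → ℤ => (marg P s t r : ℂ) * ee (∑ k, χ k * r k))
      (∑' z : Fin N → ℤ, (wt s t z : ℂ) * ee (∑ j, yv P χ j * z j)) := by
  have hsum : Summable fun z : Fin N → ℤ => (wt s t z : ℂ) * ee (∑ j, yv P χ j * z j) := by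
    refine Summable.of_norm ((summable_wt s hs t ht).congr fun z => ?_)
    rw [norm_mul, norm_ee, mul_one, Complex.norm_real, Real.norm_eq_abs, abs_of_nonneg]
    exact (Real.exp_pos _).le
  have h := hsum.hasSum.tsum_fiberwise (fun z : Fin N → ℤ => P.mulVec z)
  refine h.congr_fun ?_
  intro r
  unfold marg
  rw [Complex.ofReal_tsum, ← tsum_mul_right,
    tsum_subtype ((fun z : Fin N → ℤ => P.mulVec z) ⁻¹' {r})
      (fun z => (wt s t z : ℂ) * ee (∑ j, yv P χ j * z j))]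
  refine tsum_congr fun z => ?_
  by_cases hz : P.mulVec z = r
  · rw [Set.indicator_of_mem (show z ∈ {z | P.mulVec z = r} from hz),
      Set.indicator_of_mem (show z ∈ (fun z : Fin N → ℤ => P.mulVec z) ⁻¹' {r} from hz)]
    rw [← sum_swap, hz]
  · rw [Set.indicator_of_notMem (show z ∉ {z | P.mulVec z = r} from hz),
      Set.indicator_of_notMem (show z ∉ (fun z : Fin N → ℤ => P.mulVec z) ⁻¹' {r} from hz)]
    simp

theorem marg_summable {N d : ℕ} (P : Matrix (Fin d) (Fin N) ℤ) (s : Fin N → ℝ) (hs : ∀ j, 0 < s j)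
    (t : ℝ) (ht : 0 < t) : Summable fun r : Fin d → ℤ => marg P s t r := by
  have h := ((summable_wt s hs t ht).hasSum.tsum_fiberwise (fun z : Fin N → ℤ => P.mulVec z)).summable
  refine h.congr fun r => ?_
  unfold marg
  rw [tsum_subtype ((fun z : Fin N → ℤ => P.mulVec z) ⁻¹' {r}) (wt s t)]
  rfl


/-- the map `Pᵀ` on integer vectors -/
def LT {N d : ℕ} (P : Matrix (Fin d) (Fin N) ℤ) (l : Fin d → ℤ) : Fin N → ℤ :=
  fun j => ∑ k, l k * P k j

theorem dot_LT {N d : ℕ} (P : Matrix (Fin d) (Fin N) ℤ) (l : Fin d → ℤ) (z : Fin N → ℤ) :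
    ∑ j, LT P l j * z j = ∑ k, l k * P.mulVec z k := by
  unfold LT
  simp only [Matrix.mulVec, dotProduct, Finset.mul_sum, Finset.sum_mul]
  rw [Finset.sum_comm]
  refine Finset.sum_congr rfl fun j _ => Finset.sum_congr rfl fun k _ => ?_
  ring

theorem LT_inj {N d : ℕ} (P : Matrix (Fin d) (Fin N) ℤ) (hP : Function.Surjective P.mulVec) :
    Function.Injective (LT P) := by
  intro l l' h
  funext i
  obtain ⟨z, hz⟩ := hP (Pi.single i 1)
  have h1 := dot_LT P l z
  have h2 := dot_LT P l' z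
  rw [hz] at h1 h2
  rw [h] at h1
  simp [Pi.single_apply] at h1 h2
  rw [← h1, ← h2]

/-- vectors off the lattice `Pᵀ ℤ^d` are far from the real space `Pᵀ ℝ^d`. -/
theorem gap {N d : ℕ} (P : Matrix (Fin d) (Fin N) ℤ) (hP : Function.Surjective P.mulVec)
    (s : Fin N → ℝ) (hs : ∀ j, 0 < s j) :
    ∃ c1 : ℝ, 0 < c1 ∧ ∀ (χ : Fin d → ℝ) (k : Fin N → ℤ), k ∉ Set.range (LT P) →
      c1 ≤ qf s (fun j => (k j : ℝ) - yv P χ j) := by
  choose ρ hρ using fun i : Fin d => hP (Pi.single i 1)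
  set B : ℝ := 1 + ∑ j : Fin N, ∑ i : Fin d, |(P i j : ℝ)| * ∑ m : Fin N, |(ρ i m : ℝ)| with hB
  have hB1 : 1 ≤ B := by
    have : 0 ≤ ∑ j : Fin N, ∑ i : Fin d, |(P i j : ℝ)| * ∑ m : Fin N, |(ρ i m : ℝ)| := by positivity
    linarith
  have hsp : 0 ≤ ∑ j, 1 / s j := Finset.sum_nonneg fun j _ => (one_div_pos.mpr (hs j)).le
  refine ⟨1 / (B ^ 2 * (1 + ∑ j, 1 / s j)), by positivity, ?_⟩
  intro χ k hk
  set u : Fin N → ℝ := fun j => (k j : ℝ) - yv P χ j with hu
  -- the integer vector `l`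
  set l : Fin d → ℤ := fun i => ∑ j, k j * ρ i j with hl
  have hne : ∃ j0, k j0 ≠ LT P l j0 := by
    by_contra hcon
    push Not at hcon
    exact hk ⟨l, (funext hcon).symm⟩
  obtain ⟨j0, hj0⟩ := hne
  have h1 : (1 : ℝ) ≤ |((k j0 - LT P l j0 : ℤ) : ℝ)| := by
    have : (1 : ℤ) ≤ |k j0 - LT P l j0| := Int.one_le_abs (sub_ne_zero.mpr hj0)
    exact_mod_cast this
  have h2 : ∀ i, ∑ j, yv P χ j * (ρ i j : ℝ) = χ i := by
    intro i
    rw [← sum_swap, hρ i]
    simp [Pi.single_apply]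
  have h3 : ∀ i, χ i - (l i : ℝ) = - ∑ j, u j * (ρ i j : ℝ) := by
    intro i
    have : (l i : ℝ) = ∑ j, (k j : ℝ) * (ρ i j : ℝ) := by
      simp [hl]
    rw [this, ← h2 i, ← Finset.sum_sub_distrib, ← Finset.sum_neg_distrib]
    refine Finset.sum_congr rfl fun j _ => ?_
    simp only [hu]
    ring
  have h4 : ((k j0 - LT P l j0 : ℤ) : ℝ) = u j0 + ∑ i, (- ∑ j, u j * (ρ i j : ℝ)) * (P i j0 : ℝ) := by
    have : ∀ i, (- ∑ j, u j * (ρ i j : ℝ)) * (P i j0 : ℝ) = χ i * (P i j0 : ℝ) - (l i : ℝ) * (P i j0 : ℝ) := by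
      intro i
      rw [← h3 i]; ring
    rw [Finset.sum_congr rfl (fun i _ => this i), Finset.sum_sub_distrib]
    simp only [hu, yv, LT]
    push_cast
    ring
  have hU : ∀ j, |u j| ≤ ∑ j, |u j| := fun j =>
    Finset.single_le_sum (f := fun j => |u j|) (fun _ _ => abs_nonneg _) (Finset.mem_univ j)
  have hU0 : 0 ≤ ∑ j, |u j| := Finset.sum_nonneg fun _ _ => abs_nonneg _
  have h5 : 1 ≤ B * ∑ j, |u j| := by
    refine h1.trans ?_
    rw [h4]
    refine (abs_add_le _ _).trans ?_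
    have h6 : |∑ i, (- ∑ j, u j * (ρ i j : ℝ)) * (P i j0 : ℝ)| ≤
        ∑ i, (|(P i j0 : ℝ)| * ∑ m : Fin N, |(ρ i m : ℝ)|) * ∑ j, |u j| := by
      refine (Finset.abs_sum_le_sum_abs _ _).trans (Finset.sum_le_sum fun i _ => ?_)
      rw [abs_mul, abs_neg, mul_comm, mul_assoc]
      refine mul_le_mul_of_nonneg_left ?_ (abs_nonneg _)
      refine (Finset.abs_sum_le_sum_abs _ _).trans ?_
      rw [Finset.sum_mul]
      refine Finset.sum_le_sum fun j _ => ?_
      rw [abs_mul, mul_comm]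
      exact mul_le_mul_of_nonneg_left (hU j) (abs_nonneg _)
    rw [← Finset.sum_mul] at h6
    have h7 : ∑ i : Fin d, |(P i j0 : ℝ)| * ∑ m : Fin N, |(ρ i m : ℝ)| ≤
        ∑ j : Fin N, ∑ i : Fin d, |(P i j : ℝ)| * ∑ m : Fin N, |(ρ i m : ℝ)| :=
      Finset.single_le_sum (f := fun j => ∑ i : Fin d, |(P i j : ℝ)| * ∑ m : Fin N, |(ρ i m : ℝ)|)
        (fun _ _ => by positivity) (Finset.mem_univ j0)
    calc |u j0| + |∑ i, (- ∑ j, u j * (ρ i j : ℝ)) * (P i j0 : ℝ)|
        ≤ ∑ j, |u j| + (∑ j : Fin N, ∑ i : Fin d, |(P i j : ℝ)| * ∑ m : Fin N, |(ρ i m : ℝ)|) *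
            ∑ j, |u j| := by
          refine add_le_add (hU j0) (h6.trans ?_)
          exact mul_le_mul_of_nonneg_right h7 hU0
      _ = B * ∑ j, |u j| := by rw [hB]; ring
  have h8 : (∑ j, |u j|) ^ 2 ≤ (∑ j, 1 / s j) * qf s u := by
    unfold qf
    refine Finset.sum_sq_le_sum_mul_sum_of_sq_le_mul _ (fun j _ => (one_div_pos.mpr (hs j)).le)
      (fun j _ => mul_nonneg (hs j).le (sq_nonneg _)) (fun j _ => le_of_eq ?_)
    rw [sq_abs]
    have := (hs j).ne'
    field_simp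
  have hq := qf_nonneg s u hs
  have h9 : (∑ j, |u j|) ^ 2 ≤ (1 + ∑ j, 1 / s j) * qf s u := by
    refine h8.trans (mul_le_mul_of_nonneg_right (by linarith) hq)
  have h10 : 1 ≤ B ^ 2 * (1 + ∑ j, 1 / s j) * qf s u := by
    have : 1 ≤ (B * ∑ j, |u j|) ^ 2 := one_le_pow₀ h5
    calc (1 : ℝ) ≤ (B * ∑ j, |u j|) ^ 2 := this
      _ = B ^ 2 * (∑ j, |u j|) ^ 2 := by ring
      _ ≤ B ^ 2 * ((1 + ∑ j, 1 / s j) * qf s u) := mul_le_mul_of_nonneg_left h9 (sq_nonneg _)
      _ = _ := by ring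
  rw [div_le_iff₀ (by positivity)]
  linarith

theorem qf_half {N : ℕ} (s : Fin N → ℝ) (hs : ∀ j, 0 < s j) (k y : Fin N → ℝ) :
    qf s k / 2 - qf s y ≤ qf s (fun j => k j - y j) := by
  unfold qf
  rw [Finset.sum_div, ← Finset.sum_sub_distrib]
  refine Finset.sum_le_sum fun j _ => ?_
  nlinarith [mul_nonneg (hs j).le (sq_nonneg (k j - 2 * y j))]

theorem qf_yv_le {N d : ℕ} (P : Matrix (Fin d) (Fin N) ℤ) (s : Fin N → ℝ) (hs : ∀ j, 0 < s j)
    (χ : Fin d → ℝ) (hχ : ∀ k, 0 ≤ χ k ∧ χ k ≤ 1) :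
    qf s (yv P χ) ≤ qf s (fun j => ∑ k, |(P k j : ℝ)|) := by
  unfold qf yv
  refine Finset.sum_le_sum fun j _ => mul_le_mul_of_nonneg_left ?_ (hs j).le
  rw [← sq_abs]
  refine pow_le_pow_left₀ (abs_nonneg _) ?_ 2
  refine (Finset.abs_sum_le_sum_abs _ _).trans (Finset.sum_le_sum fun k _ => ?_)
  rw [abs_mul, abs_of_nonneg (hχ k).1]
  exact mul_le_of_le_one_left (abs_nonneg _) (hχ k).2

/-- The main estimate for one matrix. -/
theorem one_side {N d : ℕ} (P : Matrix (Fin d) (Fin N) ℤ) (hP : Function.Surjective P.mulVec)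
    (s : Fin N → ℝ) (hs : ∀ j, 0 < s j) :
    ∃ C c : ℝ, 0 < c ∧ 0 ≤ C ∧ ∀ t : ℝ, 1 ≤ t → ∀ χ : Fin d → ℝ, (∀ k, 0 ≤ χ k ∧ χ k ≤ 1) →
      |(∏ j, Real.sqrt (t * s j)) *
          ∑' z : Fin N → ℤ, Real.exp (-Real.pi * (t * qf s (fun j => (z j : ℝ) - yv P χ j))) -
        (∏ j, Real.sqrt (t * s j)) *
          ∑' l : Fin d → ℤ, Real.exp (-Real.pi * (t * qf s (yv P (fun k => (l k : ℝ) - χ k))))| ≤
      C * Real.exp (-c * t) := by
  obtain ⟨c1, hc1, hgap⟩ := gap P hP s hs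
  set c3 : ℝ := qf s (fun j => ∑ k, |(P k j : ℝ)|) with hc3
  have hsumG : Summable fun z : Fin N → ℤ =>
      Real.exp (-Real.pi * ((1 / 4) * qf s (fun j => (z j : ℝ) - (0 : Fin N → ℝ) j))) :=
    summable_qf s hs (1 / 4) (by norm_num) 0
  set G : ℝ := ∑' z : Fin N → ℤ,
      Real.exp (-Real.pi * ((1 / 4) * qf s (fun j => (z j : ℝ) - (0 : Fin N → ℝ) j))) with hG
  have hG0 : 0 ≤ G := tsum_nonneg fun _ => (Real.exp_pos _).le
  set C4 : ℝ := Real.exp (Real.pi / 2 * c3) * G with hC4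
  have hC40 : 0 ≤ C4 := mul_nonneg (Real.exp_pos _).le hG0
  set A : ℝ := ∏ j, Real.sqrt (s j) with hA
  have hA0 : 0 ≤ A := Finset.prod_nonneg fun _ _ => Real.sqrt_nonneg _
  set c : ℝ := Real.pi * c1 / 4 with hc
  have hcpos : 0 < c := by rw [hc]; positivity
  refine ⟨A * ((N.factorial : ℝ) / c ^ N) * C4, c, hcpos, by positivity, ?_⟩
  intro t ht χ hχ
  have ht0 : 0 < t := by linarith
  have hF := summable_qf s hs t ht0 (yv P χ)
  -- split the sum
  have hsplit := hF.tsum_subtype_add_tsum_subtype_compl (Set.range (LT P))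
  have hrange : ∑' x : Set.range (LT P), Real.exp (-Real.pi * (t * qf s
        (fun j => ((x : Fin N → ℤ) j : ℝ) - yv P χ j))) =
      ∑' l : Fin d → ℤ, Real.exp (-Real.pi * (t * qf s (yv P (fun k => (l k : ℝ) - χ k)))) := by
    rw [tsum_range (fun z : Fin N → ℤ => Real.exp (-Real.pi * (t * qf s
        (fun j => (z j : ℝ) - yv P χ j)))) (LT_inj P hP)]
    refine tsum_congr fun l => ?_
    congr 4
    funext j
    simp only [LT, yv]
    push_cast
    rw [← Finset.sum_sub_distrib]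
    refine Finset.sum_congr rfl fun k _ => ?_
    ring
  rw [← hsplit, hrange, ← mul_sub, add_sub_cancel_left]
  have hbound : ∑' x : ↑(Set.range (LT P))ᶜ, Real.exp (-Real.pi * (t * qf s
        (fun j => ((x : Fin N → ℤ) j : ℝ) - yv P χ j))) ≤ Real.exp (-(2 * c) * t) * C4 := by
    have hsG : Summable fun x : ↑(Set.range (LT P))ᶜ => Real.exp (-(2 * c) * t) *
        (Real.exp (Real.pi / 2 * c3) * Real.exp (-Real.pi * ((1 / 4) * qf s
          (fun j => ((x : Fin N → ℤ) j : ℝ) - (0 : Fin N → ℝ) j)))) :=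
      ((hsumG.subtype _).mul_left _).mul_left _
    have h1 : ∀ x : ↑(Set.range (LT P))ᶜ, Real.exp (-Real.pi * (t * qf s
        (fun j => ((x : Fin N → ℤ) j : ℝ) - yv P χ j))) ≤ Real.exp (-(2 * c) * t) *
        (Real.exp (Real.pi / 2 * c3) * Real.exp (-Real.pi * ((1 / 4) * qf s
          (fun j => ((x : Fin N → ℤ) j : ℝ) - (0 : Fin N → ℝ) j)))) := by
      intro x
      have hq1 := hgap χ x.1 x.2
      have hq2 := qf_half s hs (fun j => ((x : Fin N → ℤ) j : ℝ)) (yv P χ)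
      have hq3 := qf_yv_le P s hs χ hχ
      have hz : (fun j => ((x : Fin N → ℤ) j : ℝ) - (0 : Fin N → ℝ) j) =
          fun j => ((x : Fin N → ℤ) j : ℝ) := by funext j; simp
      rw [hz, ← Real.exp_add, ← Real.exp_add]
      apply Real.exp_le_exp.mpr
      set Q := qf s (fun j => ((x : Fin N → ℤ) j : ℝ) - yv P χ j)
      set Qk := qf s (fun j => ((x : Fin N → ℤ) j : ℝ))
      have hpi := Real.pi_pos
      have e1 : c1 * t ≤ Q * t := mul_le_mul_of_nonneg_right hq1 ht0.le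
      have e2 : Q ≤ Q * t := le_mul_of_one_le_right (hc1.le.trans hq1) ht
      have e3 : Qk / 2 - c3 ≤ Q * t := by linarith
      have : -Real.pi * (t * Q) ≤ -(Real.pi / 2) * (c1 * t) - (Real.pi / 2) * (Qk / 2 - c3) := by
        nlinarith
      refine this.trans (le_of_eq ?_)
      rw [hc]
      ring
    calc _ ≤ ∑' x : ↑(Set.range (LT P))ᶜ, Real.exp (-(2 * c) * t) *
        (Real.exp (Real.pi / 2 * c3) * Real.exp (-Real.pi * ((1 / 4) * qf s
          (fun j => ((x : Fin N → ℤ) j : ℝ) - (0 : Fin N → ℝ) j)))) :=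
          (hF.subtype _).tsum_le_tsum h1 hsG
      _ = Real.exp (-(2 * c) * t) * (Real.exp (Real.pi / 2 * c3) *
          ∑' x : ↑(Set.range (LT P))ᶜ, Real.exp (-Real.pi * ((1 / 4) * qf s
          (fun j => ((x : Fin N → ℤ) j : ℝ) - (0 : Fin N → ℝ) j)))) := by
          rw [tsum_mul_left, tsum_mul_left]
      _ ≤ Real.exp (-(2 * c) * t) * C4 := by
          rw [hC4, hG]
          refine mul_le_mul_of_nonneg_left (mul_le_mul_of_nonneg_left ?_ (Real.exp_pos _).le)
            (Real.exp_pos _).le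
          exact hsumG.tsum_subtype_le _ _ (fun _ => (Real.exp_pos _).le)
  have hnn : 0 ≤ ∑' x : ↑(Set.range (LT P))ᶜ, Real.exp (-Real.pi * (t * qf s
        (fun j => ((x : Fin N → ℤ) j : ℝ) - yv P χ j))) := tsum_nonneg fun _ => (Real.exp_pos _).le
  have hprod : ∏ j, Real.sqrt (t * s j) ≤ A * t ^ N := by
    have : ∀ j ∈ (Finset.univ : Finset (Fin N)), Real.sqrt (t * s j) ≤ Real.sqrt (s j) * t := by
      intro j _
      rw [Real.sqrt_mul ht0.le, mul_comm]
      refine mul_le_mul_of_nonneg_left ?_ (Real.sqrt_nonneg _)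
      rw [Real.sqrt_le_left ht0.le]
      nlinarith
    refine (Finset.prod_le_prod (fun _ _ => Real.sqrt_nonneg _) this).trans (le_of_eq ?_)
    rw [Finset.prod_mul_distrib, Finset.prod_const, Finset.card_univ, Fintype.card_fin]
  have hprod0 : 0 ≤ ∏ j, Real.sqrt (t * s j) := Finset.prod_nonneg fun _ _ => Real.sqrt_nonneg _
  have hpow : t ^ N ≤ ((N.factorial : ℝ) / c ^ N) * Real.exp (c * t) := by
    have := Real.pow_div_factorial_le_exp (c * t) (by positivity) N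
    rw [div_le_iff₀ (by positivity), mul_pow] at this
    rw [div_mul_eq_mul_div, le_div_iff₀ (by positivity)]
    linarith
  rw [abs_of_nonneg (mul_nonneg hprod0 hnn)]
  calc _ ≤ (A * (((N.factorial : ℝ) / c ^ N) * Real.exp (c * t))) *
        (Real.exp (-(2 * c) * t) * C4) := by
        refine mul_le_mul (hprod.trans (mul_le_mul_of_nonneg_left hpow hA0)) hbound hnn ?_
        positivity
    _ = A * ((N.factorial : ℝ) / c ^ N) * C4 * (Real.exp (c * t) * Real.exp (-(2 * c) * t)) := by ring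
    _ = _ := by
        rw [← Real.exp_add]
        congr 2
        ring

theorem partG1 : S_G1 := by
  intro d N P P' s hs hP hP' hform
  obtain ⟨C, c, hc, hC, h⟩ := one_side P hP s hs
  obtain ⟨C', c', hc', hC', h'⟩ := one_side P' hP' s hs
  refine ⟨C + C', min c c', lt_min hc hc', ?_⟩
  intro t ht r
  have ht0 : 0 < t := by linarith
  have hle : ∀ χ : Fin d → ℝ, (∀ k, 0 ≤ χ k ∧ χ k ≤ 1) →
      ‖∑' r, ((marg P s t r : ℂ) - (marg P' s t r : ℂ)) * ee (∑ k, χ k * r k)‖ ≤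
      (C + C') * Real.exp (-(min c c') * t) := by
    intro χ hχ
    have h1 := marg_hasSum P s hs t ht0 χ
    have h2 := marg_hasSum P' s hs t ht0 χ
    rw [poissonN s hs t ht0] at h1 h2
    have h3 := h1.sub h2
    have h4 : (fun r : Fin d → ℤ => ((marg P s t r : ℂ) - (marg P' s t r : ℂ)) * ee (∑ k, χ k * r k)) =
        fun r => (marg P s t r : ℂ) * ee (∑ k, χ k * r k) - (marg P' s t r : ℂ) * ee (∑ k, χ k * r k) := by
      funext r; ring
    rw [h4, h3.tsum_eq, ← Complex.ofReal_sub, Complex.norm_real, Real.norm_eq_abs]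
    have e1 := h t ht χ hχ
    have e2 := h' t ht χ hχ
    have e3 : ∀ l : Fin d → ℤ, qf s (yv P (fun k => (l k : ℝ) - χ k)) =
        qf s (yv P' (fun k => (l k : ℝ) - χ k)) := fun l => hform _
    have e3' : ∑' l : Fin d → ℤ, Real.exp (-Real.pi * (t * qf s (yv P (fun k => (l k : ℝ) - χ k)))) =
        ∑' l : Fin d → ℤ, Real.exp (-Real.pi * (t * qf s (yv P' (fun k => (l k : ℝ) - χ k)))) :=
      tsum_congr fun l => by rw [e3 l]
    rw [e3'] at e1
    have e4 : Real.exp (-c * t) ≤ Real.exp (-(min c c') * t) := by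
      apply Real.exp_le_exp.mpr
      have := min_le_left c c'
      nlinarith
    have e5 : Real.exp (-c' * t) ≤ Real.exp (-(min c c') * t) := by
      apply Real.exp_le_exp.mpr
      have := min_le_right c c'
      nlinarith
    have e6 := mul_le_mul_of_nonneg_left e4 hC
    have e7 := mul_le_mul_of_nonneg_left e5 hC'
    rw [abs_le] at e1 e2 ⊢
    constructor <;> nlinarith [e1.1, e1.2, e2.1, e2.2]
  have hsum : Summable fun r : Fin d → ℤ => ‖(marg P s t r : ℂ) - (marg P' s t r : ℂ)‖ := by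
    have h1 := (marg_summable P s hs t ht0).sub (marg_summable P' s hs t ht0)
    refine h1.norm.congr fun r => ?_
    rw [← Complex.ofReal_sub, Complex.norm_real]
  have hfin := fourier_inv _ hsum _ (by positivity) hle r
  rw [← Complex.ofReal_sub, Complex.norm_real, Real.norm_eq_abs] at hfin
  exact hfin

end Pool.Agent.N362.SM
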