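import Pool.Agent.Y85.XK.LA
import Pool.Agent.N848.SM.Stm

/-!
# SM/LA: the law of random symmetric completions over `F_3` with one more equation

Adapted from `Pool/Agent/Y85/XK/LA.lean`. Three times the indicator of the system with one more
equation is the sum of the indicators of the system and of the three bordered systems.
-/

set_option autoImplicit false
set_option linter.all false

open scoped Classical

namespace Pool.Agent.N362.SM

open Function Module Finset
open Pool.Agent.Y759.CX (fr fr_equiv fr_comp)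
open Pool.Agent.Y703.XK (S_SYM S_C9 c9 prs)
open Pool.Agent.Y85.XK

section abs

variable {V X : Type} [AddCommGroup V] [Module F V] [Finite V]
  [AddCommGroup X] [Module F X] [Finite X]

/-- the block system with one more equation -/
def Gs3 (A : X →ₗ[F] X →ₗ[F] F) (c : X →ₗ[F] V →ₗ[F] F) (S : V →ₗ[F] V →ₗ[F] F)
    (f : X →ₗ[F] F) (g : V →ₗ[F] F) : Prop :=
  ∀ x y, (∀ x', A x x' + c x' y = 0) → (∀ y', c x y' + S y y' = 0) → f x + g y = 0 →
    x = 0 ∧ y = 0

/-- the bordered first block -/
def At (A : X →ₗ[F] X →ₗ[F] F) (f : X →ₗ[F] F) (τ : F) : (X × F) →ₗ[F] (X × F) →ₗ[F] F :=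
  LinearMap.mk₂ F (fun z w => A z.1 w.1 + z.2 * f w.1 + w.2 * f z.1 + τ * z.2 * w.2)
    (fun a b c => by
      simp only [Prod.fst_add, Prod.snd_add, map_add, LinearMap.add_apply]; ring)
    (fun r a b => by
      simp only [Prod.smul_fst, Prod.smul_snd, map_smul, LinearMap.smul_apply, smul_eq_mul]; ring)
    (fun a b c => by
      simp only [Prod.fst_add, Prod.snd_add, map_add]; ring)
    (fun r a b => by
      simp only [Prod.smul_fst, Prod.smul_snd, map_smul, smul_eq_mul]; ring)

lemma At_apply (A : X →ₗ[F] X →ₗ[F] F) (f : X →ₗ[F] F) (τ : F) (z w : X × F) :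
    At A f τ z w = A z.1 w.1 + z.2 * f w.1 + w.2 * f z.1 + τ * z.2 * w.2 := rfl

/-- the bordered second block -/
def Ct (c : X →ₗ[F] V →ₗ[F] F) (g : V →ₗ[F] F) : (X × F) →ₗ[F] V →ₗ[F] F :=
  LinearMap.mk₂ F (fun z y => c z.1 y + z.2 * g y)
    (fun a b c => by
      simp only [Prod.fst_add, Prod.snd_add, map_add, LinearMap.add_apply]; ring)
    (fun r a b => by
      simp only [Prod.smul_fst, Prod.smul_snd, map_smul, LinearMap.smul_apply, smul_eq_mul]; ring)
    (fun a b c => by
      simp only [map_add]; ring)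
    (fun r a b => by
      simp only [map_smul, smul_eq_mul]; ring)

lemma Ct_apply (c : X →ₗ[F] V →ₗ[F] F) (g : V →ₗ[F] F) (z : X × F) (y : V) :
    Ct c g z y = c z.1 y + z.2 * g y := rfl

/-- the bordered system, explicitly -/
lemma Gs_At (A : X →ₗ[F] X →ₗ[F] F) (c : X →ₗ[F] V →ₗ[F] F) (S : V →ₗ[F] V →ₗ[F] F)
    (f : X →ₗ[F] F) (g : V →ₗ[F] F) (τ : F) : Gs (At A f τ) (Ct c g) S ↔
      ∀ x y a, (∀ x', A x x' + c x' y + a * f x' = 0) → (∀ y', c x y' + S y y' + a * g y' = 0) →
        f x + g y + τ * a = 0 → x = 0 ∧ y = 0 ∧ a = 0 := by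
  constructor
  · intro h x y a h1 h2 h3
    have h4 := h (x, a) y (fun w => by
        rw [At_apply, Ct_apply]
        linear_combination h1 w.1 + w.2 * h3)
      (fun y' => by
        rw [Ct_apply]
        linear_combination h2 y')
    exact ⟨congrArg Prod.fst h4.1, h4.2, congrArg Prod.snd h4.1⟩
  · intro h z y h1 h2
    have h3 := h z.1 y z.2 (fun x' => by
        have h4 := h1 (x', 0)
        rw [At_apply, Ct_apply] at h4
        simp only [zero_mul, mul_zero, add_zero] at h4
        linear_combination h4)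
      (fun y' => by
        have h4 := h2 y'
        rw [Ct_apply] at h4
        linear_combination h4)
      (by
        have h4 := h1 (0, 1)
        rw [At_apply, Ct_apply] at h4
        simp only [map_zero, LinearMap.zero_apply, mul_zero, zero_add, one_mul, mul_one] at h4
        linear_combination h4)
    exact ⟨Prod.ext h3.1 h3.2.2, h3.2.1⟩

/-- the total form -/
def Qt (A : X →ₗ[F] X →ₗ[F] F) (c : X →ₗ[F] V →ₗ[F] F) (S : V →ₗ[F] V →ₗ[F] F) :
    (X × V) →ₗ[F] (X × V) →ₗ[F] F :=
  LinearMap.mk₂ F (fun z w => A z.1 w.1 + c w.1 z.2 + c z.1 w.2 + S z.2 w.2)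
    (fun a b c => by
      simp only [Prod.fst_add, Prod.snd_add, map_add, LinearMap.add_apply]; ring)
    (fun r a b => by
      simp only [Prod.smul_fst, Prod.smul_snd, map_smul, LinearMap.smul_apply, smul_eq_mul]; ring)
    (fun a b c => by
      simp only [Prod.fst_add, Prod.snd_add, map_add, LinearMap.add_apply]; ring)
    (fun r a b => by
      simp only [Prod.smul_fst, Prod.smul_snd, map_smul, LinearMap.smul_apply, smul_eq_mul]; ring)

lemma Qt_apply (A : X →ₗ[F] X →ₗ[F] F) (c : X →ₗ[F] V →ₗ[F] F) (S : V →ₗ[F] V →ₗ[F] F)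
    (z w : X × V) : Qt A c S z w = A z.1 w.1 + c w.1 z.2 + c z.1 w.2 + S z.2 w.2 := rfl

/-- the three systems with one more equation are nonsingular together -/
lemma pointwise (A : X →ₗ[F] X →ₗ[F] F) (hA : ∀ x y, A x y = A y x) (c : X →ₗ[F] V →ₗ[F] F)
    (S : V →ₗ[F] V →ₗ[F] F) (hS : ∀ x y, S x y = S y x) (f : X →ₗ[F] F) (g : V →ₗ[F] F) :
    (3 : ℝ) * (if Gs3 A c S f g then 1 else 0) = (if Gs A c S then 1 else 0) +
      ∑ τ : F, if Gs (At A f τ) (Ct c g) S then 1 else 0 := by
  have hsum : ∀ u : F → ℝ, ∑ τ : F, u τ = u 0 + u 1 + u 2 := fun u => Fin.sum_univ_three u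
  by_cases h3 : Gs3 A c S f g
  · rw [if_pos h3, mul_one]
    by_cases h1 : Gs A c S
    · rw [if_pos h1]
      -- the solution of `Q z = - h`
      have hinj : Injective (Qt A c S) := by
        rw [injective_iff_map_eq_zero]
        intro z hz
        have h4 := h1 z.1 z.2 (fun x' => by
            have h5 := LinearMap.congr_fun hz (x', 0)
            rw [Qt_apply] at h5
            simp only [map_zero, add_zero, LinearMap.zero_apply] at h5
            exact h5)
          (fun y' => by
            have h5 := LinearMap.congr_fun hz (0, y')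
            rw [Qt_apply] at h5
            simp only [map_zero, zero_add, LinearMap.zero_apply] at h5
            exact h5)
        exact Prod.ext h4.1 h4.2
      have hfin : finrank F (X × V) = finrank F (Module.Dual F (X × V)) :=
        (Subspace.dual_finrank_eq).symm
      have hsur : Surjective (Qt A c S) :=
        (LinearMap.injective_iff_surjective_of_finrank_eq_finrank hfin).1 hinj
      obtain ⟨z₀, hz₀⟩ := hsur (-(f.coprod g))
      have hz1 : ∀ w, Qt A c S z₀ w = -(f w.1 + g w.2) := fun w => by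
        rw [hz₀]
        rfl
      obtain ⟨s, hs⟩ : ∃ s : F, s = -(f z₀.1 + g z₀.2) := ⟨_, rfl⟩
      have hsol : ∀ x y (a : F), (∀ x', A x x' + c x' y + a * f x' = 0) →
          (∀ y', c x y' + S y y' + a * g y' = 0) → x = a • z₀.1 ∧ y = a • z₀.2 := by
        intro x y a e1 e2
        have e3 : Qt A c S ((x, y) - a • z₀) = 0 := by
          refine LinearMap.ext fun w => ?_
          rw [map_sub, map_smul, LinearMap.sub_apply, LinearMap.smul_apply, hz1, Qt_apply,
            smul_eq_mul, LinearMap.zero_apply]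
          linear_combination e1 w.1 + e2 w.2
        have e4 := hinj (e3.trans (map_zero _).symm)
        rw [sub_eq_zero] at e4
        exact ⟨congrArg Prod.fst e4, congrArg Prod.snd e4⟩
      have hτ : ∀ τ : F, Gs (At A f τ) (Ct c g) S ↔ τ ≠ s := by
        intro τ
        rw [Gs_At]
        constructor
        · intro h e
          have h5 := h z₀.1 z₀.2 1 (fun x' => by
              have e5 := hz1 (x', 0)
              rw [Qt_apply] at e5
              simp only [map_zero, add_zero] at e5
              linear_combination e5)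
            (fun y' => by
              have e5 := hz1 (0, y')
              rw [Qt_apply] at e5
              simp only [map_zero, LinearMap.zero_apply, zero_add] at e5
              linear_combination e5)
            (by rw [e, hs]; ring)
          exact one_ne_zero h5.2.2
        · intro hne x y a e1 e2 e3
          obtain ⟨e4, e5⟩ := hsol x y a e1 e2
          have e6 : a * (τ - s) = 0 := by
            rw [e4, e5, map_smul, map_smul, smul_eq_mul, smul_eq_mul] at e3
            rw [hs]
            linear_combination e3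
          have e7 : a = 0 := (mul_eq_zero.1 e6).resolve_right (sub_ne_zero.2 hne)
          rw [e7, zero_smul] at e4 e5
          exact ⟨e4, e5, e7⟩
      have e8 : ∀ τ : F, (if Gs (At A f τ) (Ct c g) S then (1 : ℝ) else 0) =
          1 - if τ = s then 1 else 0 := by
        intro τ
        by_cases h : τ = s
        · rw [if_neg (fun h' => (hτ τ).1 h' h), if_pos h, sub_self]
        · rw [if_pos ((hτ τ).2 h), if_neg h, sub_zero]
      rw [sum_congr rfl fun τ _ => e8 τ, sum_sub_distrib, sum_ite_eq' univ s, if_pos (mem_univ s),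
        hsum]
      norm_num
    · rw [if_neg h1, zero_add]
      -- a vector of the kernel
      obtain ⟨x₁, y₁, k1, k2, k3⟩ : ∃ x₁ y₁, (∀ x', A x₁ x' + c x' y₁ = 0) ∧
          (∀ y', c x₁ y' + S y₁ y' = 0) ∧ ¬ (x₁ = 0 ∧ y₁ = 0) := by
        by_contra hcon
        push Not at hcon
        apply h1
        intro x y e1 e2
        by_contra hne
        exact hne (hcon x y e1 e2)
      have k4 : f x₁ + g y₁ ≠ 0 := fun e => k3 (h3 x₁ y₁ k1 k2 e)
      have hτ : ∀ τ : F, Gs (At A f τ) (Ct c g) S := by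
        intro τ
        rw [Gs_At]
        intro x y a e1 e2 e3
        have e4 : a * (f x₁ + g y₁) = 0 := by
          have a1 := e1 x₁
          have a2 := e2 y₁
          have a3 := k1 x
          have a4 := k2 y
          rw [hA x₁ x] at a3
          rw [hS y₁ y] at a4
          linear_combination a1 + a2 - a3 - a4
        have e5 : a = 0 := (mul_eq_zero.1 e4).resolve_right k4
        have e6 := h3 x y (fun x' => by
            have a1 := e1 x'
            rw [e5, zero_mul, add_zero] at a1
            exact a1)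
          (fun y' => by
            have a1 := e2 y'
            rw [e5, zero_mul, add_zero] at a1
            exact a1)
          (by rw [e5, mul_zero, add_zero] at e3; exact e3)
        exact ⟨e6.1, e6.2, e5⟩
      rw [sum_congr rfl fun τ _ => if_pos (hτ τ), hsum]
      norm_num
  · rw [if_neg h3, mul_zero]
    have k : ∃ x₁ y₁, (∀ x', A x₁ x' + c x' y₁ = 0) ∧
          (∀ y', c x₁ y' + S y₁ y' = 0) ∧ f x₁ + g y₁ = 0 ∧ ¬ (x₁ = 0 ∧ y₁ = 0) := by
      by_contra hcon
      push Not at hcon
      apply h3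
      intro x y e1 e2 e3
      by_contra hne
      exact hne (hcon x y e1 e2 e3)
    obtain ⟨x₁, y₁, k1, k2, k3, k4⟩ := k
    have h1 : ¬ Gs A c S := fun h => k4 (h x₁ y₁ k1 k2)
    have hτ : ∀ τ : F, ¬ Gs (At A f τ) (Ct c g) S := by
      intro τ h
      rw [Gs_At] at h
      have h5 := h x₁ y₁ 0 (fun x' => by rw [zero_mul, add_zero]; exact k1 x')
        (fun y' => by rw [zero_mul, add_zero]; exact k2 y') (by rw [mul_zero, add_zero]; exact k3)
      exact k4 ⟨h5.1, h5.2.1⟩
    rw [if_neg h1, sum_congr rfl fun τ _ => if_neg (hτ τ), sum_const_zero, add_zero]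

lemma card_ind {G : Type} [Fintype G] (P : G → Prop) :
    (Nat.card {g // P g} : ℝ) = ∑ g, if P g then 1 else 0 := by
  rw [Nat.card_eq_fintype_card, Fintype.card_subtype, Finset.card_filter]
  push_cast
  rfl

/-- three times the fraction with one more equation -/
lemma fr_three (A : X →ₗ[F] X →ₗ[F] F) (hA : ∀ x y, A x y = A y x) (c : X →ₗ[F] V →ₗ[F] F)
    (f : X →ₗ[F] F) (g : V →ₗ[F] F) :
    3 * fr (fun S : Sy V => Gs3 A c S.1 f g) = fr (fun S : Sy V => Gs A c S.1) +
      ∑ τ : F, fr (fun S : Sy V => Gs (At A f τ) (Ct c g) S.1) := by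
  let _ : Fintype (Sy V) := Fintype.ofFinite _
  unfold Pool.Agent.Y759.CX.fr
  simp only [card_ind]
  rw [← Finset.sum_div, ← add_div, ← mul_div_assoc, mul_sum, sum_comm, ← sum_add_distrib]
  congr 1
  exact sum_congr rfl fun S _ => pointwise A hA c S.1 S.2 f g

/-- the fraction with one more equation -/
theorem fr_Gs3 (hsym : S_SYM) (A : X →ₗ[F] X →ₗ[F] F) (hA : ∀ x y, A x y = A y x)
    (c : X →ₗ[F] V →ₗ[F] F) (f : X →ₗ[F] F) (g : V →ₗ[F] F)
    (hc : ∀ x (a : F), (∀ y, c x y + a * g y = 0) → x = 0 ∧ a = 0) :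
    ∃ (m : ℕ) (n : F → ℕ), finrank F V ≤ m + finrank F X ∧
      (∀ τ, finrank F V ≤ n τ + (finrank F X + 1)) ∧
      3 * fr (fun S : Sy V => Gs3 A c S.1 f g) = sp m + ∑ τ, sp (n τ) := by
  obtain ⟨m, hm, h1⟩ := fr_Gs hsym A hA c (fun x hx => (hc x 0 fun y => by
    rw [hx y, zero_mul, add_zero]).1)
  have h2 : ∀ τ : F, ∃ n, finrank F V ≤ n + (finrank F X + 1) ∧
      fr (fun S : Sy V => Gs (At A f τ) (Ct c g) S.1) = sp n := by
    intro τ
    obtain ⟨n, hn, h3⟩ := fr_Gs hsym (At A f τ) (fun z w => by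
        rw [At_apply, At_apply, hA]
        ring) (Ct c g) (fun z hz => by
        have h4 := hc z.1 z.2 fun y => hz y
        exact Prod.ext h4.1 h4.2)
    rw [Module.finrank_prod, Module.finrank_self] at hn
    exact ⟨n, hn, h3⟩
  choose n hn hn' using h2
  refine ⟨m, n, hm, hn, ?_⟩
  rw [fr_three A hA c f g, h1]
  congr 1
  exact sum_congr rfl fun τ _ => hn' τ

end abs

/-- the linear form of a vector -/
def lf {ι : Type} [Fintype ι] (w : ι → F) : (ι → F) →ₗ[F] F where
  toFun x := ∑ i, w i * x i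
  map_add' x y := by
    rw [← sum_add_distrib]
    exact sum_congr rfl fun i _ => by rw [Pi.add_apply, mul_add]
  map_smul' r x := by
    rw [RingHom.id_apply, smul_eq_mul, mul_sum]
    exact sum_congr rfl fun i _ => by rw [Pi.smul_apply, smul_eq_mul]; ring

lemma lf_apply {ι : Type} [Fintype ι] (w x : ι → F) : lf w x = ∑ i, w i * x i := rfl

lemma Gs3_iff {ι κ : Type} [Fintype ι] [Fintype κ] (MA : ι → ι → F) (MC : ι → κ → F)
    (MS : κ → κ → F) (f : ι → F) (g : κ → F) :
    Gs3 (bf MA) (bf MC) (bf MS) (lf f) (lf g) ↔ ∀ (x : ι → F) (y : κ → F),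
      (∀ v, ∑ u, x u * MA u v + ∑ k, MC v k * y k = 0) →
      (∀ l, ∑ u, x u * MC u l + ∑ k, y k * MS k l = 0) →
      ∑ i, f i * x i + ∑ k, g k * y k = 0 → x = 0 ∧ y = 0 := by
  constructor
  · intro h x y h1 h2 h0
    refine h x y (fun x' => ?_) (fun y' => ?_) h0
    · rw [bf_l, bf_r, ← sum_add_distrib]
      refine sum_eq_zero fun v _ => ?_
      rw [← add_mul, h1, zero_mul]
    · rw [bf_l, bf_l, ← sum_add_distrib]
      refine sum_eq_zero fun v _ => ?_
      rw [← add_mul, h2, zero_mul]
  · intro h x y h1 h2 h0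
    refine h x y (all_zero _ fun x' => ?_) (all_zero _ fun y' => ?_) h0
    · have h3 := h1 x'
      rw [bf_l, bf_r, ← sum_add_distrib] at h3
      rw [← h3]
      exact sum_congr rfl fun v _ => by rw [add_mul]
    · have h3 := h2 y'
      rw [bf_l, bf_l, ← sum_add_distrib] at h3
      rw [← h3]
      exact sum_congr rfl fun v _ => by rw [add_mul]

section main

open Pool.Agent.N848.SM (GdA3)

variable {U J : Type} [Fintype U] [Fintype J] [LinearOrder J]

lemma gd3_iff (ks : J) (A : U → U → F) (B : U → J → F) (hA : ∀ u v, A u v = A v u)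
    (f : U → F) (g : J → F) (hfg : ∑ u, f u + ∑ l, g l = 0) (α : prs J → F) :
    GdA3 A B (Pool.Agent.Y703.XK.ext α) f g ↔
      Gs3 (bf (mA A B)) (bf (mC ks B)) (bf fun k l => mL ks α k l + mZ ks B k l) (lf f)
        (lf fun k : {k : J // k ≠ ks} => g k) := by
  rw [Gs3_iff]
  constructor
  · intro h x y h1 h2 h0
    have g1 : ∀ u, ∑ v, A u v * (x v - x u) + ∑ l, B u l * (zx ks y l - x u) = 0 := by
      intro u
      rw [row1 ks A B hA]
      exact h1 u
    have g2 : ∀ k, k ≠ ks → ∑ u, B u k * (x u - zx ks y k) +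
        ∑ l, Pool.Agent.Y703.XK.ext α k l * (zx ks y l - zx ks y k) = 0 := by
      intro k hk
      have h3 := row2 ks B α x y ⟨k, hk⟩
      rw [h2 ⟨k, hk⟩] at h3
      exact h3
    have g3 : ∑ u, B u ks * (x u - zx ks y ks) +
        ∑ l, Pool.Agent.Y703.XK.ext α ks l * (zx ks y l - zx ks y ks) = 0 := by
      have t1 := tot_symm A hA x
      have t2 := tot_symm (Pool.Agent.Y703.XK.ext α) (ext_symm α) (zx ks y)
      have t3 := tot_cross B x (zx ks y)
      have t4 : ∑ u, (∑ v, A u v * (x v - x u) + ∑ l, B u l * (zx ks y l - x u)) = 0 :=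
        sum_eq_zero fun u _ => g1 u
      have t5 : ∑ k, (∑ u, B u k * (x u - zx ks y k) +
          ∑ l, Pool.Agent.Y703.XK.ext α k l * (zx ks y l - zx ks y k)) =
          ∑ u, B u ks * (x u - zx ks y ks) +
            ∑ l, Pool.Agent.Y703.XK.ext α ks l * (zx ks y l - zx ks y ks) := by
        refine sum_eq_single ks (fun k _ hk => g2 k hk) fun h => absurd (mem_univ _) h
      rw [← t5]
      rw [sum_add_distrib] at t4 ⊢
      rw [t1, zero_add] at t4
      rw [t2, add_zero]
      rw [t4, zero_add] at t3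
      exact t3
    obtain ⟨t, h3, h4⟩ := h x (zx ks y) g1 (fun k => by
      by_cases hk : k = ks
      · rw [hk]
        exact g3
      · exact g2 k hk) (by
        rw [sum_zx]
        exact h0)
    have ht : t = 0 := by rw [← h4 ks, zx_ks]
    refine ⟨funext fun u => ?_, funext fun k => ?_⟩
    · rw [h3, ht]
      rfl
    · rw [← zx_of ks y k, h4, ht]
      rfl
  · intro h c d h1 h2 h0
    have e2 : ∀ k, zx ks (fun k : {k : J // k ≠ ks} => d k - d ks) k = d k - d ks := by
      intro k
      by_cases hk : k = ks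
      · rw [hk, zx_ks, sub_self]
      · exact zx_of ks (fun k : {k : J // k ≠ ks} => d k - d ks) ⟨k, hk⟩
    obtain ⟨h3, h4⟩ := h (fun u => c u - d ks) (fun k => d k - d ks)
      (fun u => by
        rw [← row1 ks A B hA]
        simp only [e2, sub_sub_sub_cancel_right]
        exact h1 u)
      (fun k => by
        rw [← row2 ks B α]
        simp only [e2, sub_sub_sub_cancel_right]
        exact h2 k)
      (by
        have e3 := sum_zx ks (fun k : {k : J // k ≠ ks} => d k - d ks) g
        rw [← e3]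
        simp only [e2, mul_sub, sum_sub_distrib]
        rw [← sum_mul, ← sum_mul]
        linear_combination h0 - d ks * hfg)
    refine ⟨d ks, fun u => ?_, fun k => ?_⟩
    · exact sub_eq_zero.1 (congrFun h3 u)
    · by_cases hk : k = ks
      · rw [hk]
      · exact sub_eq_zero.1 (congrFun h4 ⟨k, hk⟩)

end main

theorem t_LA3 (h : Pool.Agent.Y703.XK.S_SYM) (h9 : Pool.Agent.Y703.XK.S_C9) :
    Pool.Agent.N848.SM.S_LA3 := by
  intro U J _ _ _ A B f g hJ hA hfg hB
  obtain ⟨ks, hks⟩ := exists_ks (ι := Option U) (by rw [Fintype.card_option]; exact hJ)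
    (fun o k => o.elim (g k) fun u => B u k) (fun w hw => by
      obtain ⟨k, hk⟩ := hB (fun u => w (some u)) (w none) (by
        obtain ⟨o, ho⟩ := hw
        cases o with
        | none => exact Or.inr ho
        | some u => exact Or.inl ⟨u, ho⟩)
      refine ⟨k, ?_⟩
      rw [Fintype.sum_option, add_comm]
      exact hk)
  obtain ⟨m, n, hm, hn, key⟩ := fr_Gs3 h (bf (mA A B)) (bf_symm _ (mA_symm A B hA))
    (bf (mC ks B)) (lf f) (lf fun k : {k : J // k ≠ ks} => g k)
    (fun x a hx => by
      have hz : ∀ k : {k : J // k ≠ ks}, ∑ i, x i * mC ks B i k + a * g k = 0 := by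
        apply all_zero (fun k : {k : J // k ≠ ks} => ∑ i, x i * mC ks B i k + a * g k)
        intro y
        have h1 := hx y
        rw [bf_l, lf_apply, mul_sum, ← sum_add_distrib] at h1
        rw [← h1]
        exact sum_congr rfl fun k _ => by ring
      by_contra hne
      obtain ⟨k, hk, hk'⟩ := hks (fun o => o.elim a x) (by
        by_contra hc
        push Not at hc
        exact hne ⟨funext fun u => hc (some u), hc none⟩)
      apply hk'
      rw [Fintype.sum_option, add_comm]
      exact hz ⟨k, hk⟩)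
  rw [finrank_fintype_fun_eq_card, finrank_fintype_fun_eq_card] at hm
  simp only [finrank_fintype_fun_eq_card] at hn
  have e1 : Fintype.card {k : J // k ≠ ks} = Fintype.card J - 1 := by
    rw [Fintype.card_subtype_compl, Fintype.card_subtype_eq]
  have h5 : ((univ.filter fun α : prs J → ZMod 3 =>
      Pool.Agent.N848.SM.GdA3 A B (Pool.Agent.Y703.XK.ext α) f g).card : ℝ) / 3 ^ (prs J).card =
      fr (fun S : Sy ({k : J // k ≠ ks} → F) => Gs3 (bf (mA A B)) (bf (mC ks B)) S.1 (lf f)
        (lf fun k : {k : J // k ≠ ks} => g k)) := by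
    let S0 : Sy ({k : J // k ≠ ks} → F) := ⟨bf (mZ ks B), bf_symm _ (mZ_symm ks B)⟩
    rw [← fr_equiv (Equiv.addRight S0)
      (fun S : Sy ({k : J // k ≠ ks} → F) => Gs3 (bf (mA A B)) (bf (mC ks B)) S.1 (lf f)
        (lf fun k : {k : J // k ≠ ks} => g k)),
      ← fr_comp (pa ks) (pa_surj ks)]
    unfold Pool.Agent.Y759.CX.fr
    have h6 : Nat.card (prs J → F) = 3 ^ (prs J).card := by
      rw [Nat.card_fun, Nat.card_eq_fintype_card, Nat.card_eq_fintype_card, ZMod.card,
        Fintype.card_coe]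
    rw [h6, Nat.card_eq_fintype_card, Fintype.card_subtype]
    push_cast
    congr 3
    refine Finset.filter_congr fun α _ => ?_
    rw [gd3_iff ks A B hA f g hfg α, bf_add]
    exact Iff.rfl
  rw [h5]
  obtain ⟨φ, hφ⟩ : ∃ φ : ℝ, φ = fr (fun S : Sy ({k : J // k ≠ ks} → F) =>
    Gs3 (bf (mA A B)) (bf (mC ks B)) S.1 (lf f) (lf fun k : {k : J // k ≠ ks} => g k)) := ⟨_, rfl⟩
  rw [← hφ] at key ⊢
  have b1 : |sp m - c9| ≤ 3 * (3 ^ Fintype.card U / 3 ^ Fintype.card J) :=
    (h9.1 ((m + 1) / 2)).trans (third_bound (by omega))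
  have b2 : ∀ τ, |sp (n τ) - c9| ≤ 3 * (3 ^ (Fintype.card U + 1) / 3 ^ Fintype.card J) := fun τ =>
    (h9.1 ((n τ + 1) / 2)).trans (third_bound (by have := hn τ; omega))
  have hsum : ∑ τ : F, sp (n τ) = sp (n 0) + sp (n 1) + sp (n 2) := Fin.sum_univ_three _
  obtain ⟨ε, hε⟩ : ∃ ε : ℝ, ε = 3 ^ Fintype.card U / 3 ^ Fintype.card J := ⟨_, rfl⟩
  have hε0 : 0 ≤ ε := by rw [hε]; positivity
  have e3 : (3 : ℝ) * (3 ^ (Fintype.card U + 1) / 3 ^ Fintype.card J) = 9 * ε := by
    rw [hε, pow_succ]
    ring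
  rw [← hε] at b1 ⊢
  rw [hsum] at key
  have c0 := abs_le.1 (b2 0)
  have c1 := abs_le.1 (b2 1)
  have c2 := abs_le.1 (b2 2)
  have c3 := abs_le.1 b1
  rw [e3] at c0 c1 c2
  rw [abs_le]
  constructor
  · linarith [c0.1, c1.1, c2.1, c3.1]
  · linarith [c0.2, c1.2, c2.2, c3.2]

end Pool.Agent.N362.SM
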